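import Pool.Agent.Helper93.UP.LD

/-!
# PV: closure and surgery with explicit constants
-/

open Set
open Pool.Agent.Helper83.OP Pool.Agent.Helper83.LN Pool.Agent.Helper93.UP

namespace Pool.Agent.Helper71.PV

/-- the constant of the closure lemma -/
def clK (C K1 : ℕ) : ℕ := ((K1 + 1) ^ 4 * (K1 + C) + 1) +
  (C + (K1 + 2) ^ 2 * ((K1 + 1) ^ 2 * (4 + C) * C))

/-- **Closure lemma (pieces)**, explicit constant -/
theorem closure_x (C K1 K : ℕ) (hKd : K = clK C K1) : ∀ (N Q : Type) [Fintype Q] [DecidableEq Q]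
    (d : N → N → ℕ) (dg : N → ℕ) (r : ℕ) (p p' : Q → N) (ω : Q → Set N) (S0 : Finset Q)
    (γ : ∀ q, Geod d dg (p q) (p' q)),
    (∀ x, d x x = 0) → (∀ x y, d x y = d y x) → (∀ x y z, d x z ≤ d x y + d y z) →
    1 ≤ r → (∀ t, dg t ≤ C * r) → S0.card ≤ C * r →
    (∀ q ∉ S0, d (p q) (p' q) ≤ K1 * r) →
    (∀ t, {q | q ∉ S0 ∧ t ∈ ω q}.ncard ≤ dg t) →
    (∀ q ∉ S0, ∀ t ∈ ω q, d t (p q) ≤ K1 * r) →
    ∃ S : Finset Q, S0 ⊆ S ∧
      (∀ h ∉ S, ∑ q ∈ S, (γ q).hits (ω h) ≤ K * r) ∧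
      ∀ γ' : ∀ q, Geod d dg (p q) (p' q),
        (∀ z, {q | q ∈ S ∧ z ∈ (γ' q).nodes}.ncard ≤ K * r) ∧
        (∀ q ∈ S, {q' | q' ∈ S ∧ ((γ' q').nodes ∩ (γ' q).nodes).Nonempty}.ncard ≤
          K * (d (p q) (p' q) + r)) ∧
        (∀ q ∈ S, ∑ h ∈ Sᶜ, (γ' q).hits (ω h) ≤ d (p q) (p' q) + C * r) := by
  subst hKd
  unfold clK
  intro N Q _ _ d dg r p p' ω S0 γ _ hsymm htri hr hC hS0 hp hω1 hω2
  obtain ⟨S, hS, hout, hrest⟩ := closure_aux C K1 hsymm htri r hr ω S0 γ hC hS0 hp hω1 hω2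
  set B := (K1 + 1) ^ 4 * (K1 + C) + 1 with hB
  set E := (K1 + 2) ^ 2 * ((K1 + 1) ^ 2 * (4 + C) * C) with hE
  refine ⟨S, hS, fun h hh => (hout h hh).trans (Nat.mul_le_mul_right _ (by omega)), ?_⟩
  intro γ'
  obtain ⟨h1, h2, h3⟩ := hrest γ'
  refine ⟨?_, ?_, h3⟩
  · intro z
    refine (h1 z).trans ?_
    rw [← Nat.add_mul]
    exact Nat.mul_le_mul_right _ (by omega)
  · intro q hq
    refine (h2 q hq).trans ?_
    set l := d (p q) (p' q)
    have e1 : C * r ≤ C * (l + r) := Nat.mul_le_mul_left _ (by omega)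
    calc C * r + E * (l + r) ≤ C * (l + r) + E * (l + r) := Nat.add_le_add_right e1 _
      _ = (C + E) * (l + r) := by ring
      _ ≤ (B + (C + E)) * (l + r) := Nat.mul_le_mul_right _ (by omega)

open Classical in
/-- The closure lemma for the routes of the node graph: for a fixed family `Gam` of geodesics there is a set `S`
of threads such that the routes of `Gam` for the threads of `S`, together with the old curves of the others, have
few common nodes. -/
theorem load_bound_x (C K1 K Kc : ℕ) (hKcd : Kc = clK (C + 4) (2 * K1 + 4 * C + 28))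
    (hKd : K = (2 * (C + 4) + 1 + Kc) + (Kc * (K1 + 1) + (K1 + (C + 4)))) : ∀ (V T : Type) [Finite V] [Fintype T]
    (G H : SimpleGraph V) (Th : Threads G T) (Z : Plz H), H ≤ G →
    ∀ (pl : V → V) (r : ℕ) (S0 : Finset T) (Gam : Z.J → Z.J → Rt Z.J (H.edgeSet × Bool) Z.src Z.tgt),
    (∀ j j', (∃ l, Wk Z.src Z.tgt j j' l) → (Gam j j').From j j' ∧ IsGeo (cst Z) (Gam j j')) →
    1 ≤ r → (∀ v, deg G v ≤ C * r) → S0.card ≤ C * r →
    (∀ τ, r ≤ Th.len τ) → (∀ τ, τ ∉ S0 → Th.len τ ≤ 2 * r) →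
    (∀ τ, τ ∉ S0 → (∀ t < Th.len τ, H.Adj (Th.x τ t) (Th.x τ (t + 1))) ∧
      pl (Th.x τ 0) = Th.x τ 0 ∧ pl (Th.x τ (Th.len τ)) = Th.x τ (Th.len τ)) →
    (∀ τ, ∃ l, Wk Z.src Z.tgt (Z.vn (pl (Th.x τ 0))) (Z.vn (pl (Th.x τ (Th.len τ)))) l ∧
      wcost (cst Z) l ≤ K1 * Th.len τ) →
    ∃ S : Finset T, S0 ⊆ S ∧ ∀ R : T → Rt Z.J (H.edgeSet × Bool) Z.src Z.tgt,
      (∀ τ ∈ S, R τ = Gam (Z.vn (pl (Th.x τ 0))) (Z.vn (pl (Th.x τ (Th.len τ))))) →
      (∀ τ, τ ∉ S → ∀ t ≤ (R τ).len, (R τ).nd t ∈ oldN Th Z τ) →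
      ∀ τ, ∑ τ' : T, (if τ' = τ then 0 else mult R (S : Set T) τ τ') ≤ K * Th.len τ := by
  have hKc := closure_x (C + 4) (2 * K1 + 4 * C + 28) Kc hKcd
  clear hKcd
  subst hKd
  intro V T _ _ G H Th Z hHG pl r S0 Gam hGam hr hdeg hS0 hlen hlen2 hold hwalk
  have := Z.fin
  obtain ⟨B, hB⟩ := exists_B (src := Z.src) (tgt := Z.tgt) (cst Z)
  have hD : ∀ j, wt Z j ≤ (C + 4) * r := by
    intro j
    have h1 := wt_le Z (C * r) (fun v => (deg_mono hHG v).trans (hdeg v)) j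
    nlinarith
  have hw : ∀ τ, ∃ l, Wk Z.src Z.tgt (Z.vn (pl (Th.x τ 0))) (Z.vn (pl (Th.x τ (Th.len τ)))) l := by
    intro τ
    obtain ⟨l, hl, _⟩ := hwalk τ
    exact ⟨l, hl⟩
  have hdist : ∀ τ, xD Z.src Z.tgt (cst Z) B (Z.vn (pl (Th.x τ 0)))
      (Z.vn (pl (Th.x τ (Th.len τ)))) ≤ K1 * Th.len τ := by
    intro τ
    obtain ⟨l, hl, hc⟩ := hwalk τ
    exact (xD_le (cst Z) B hl).trans hc
  obtain ⟨S, hS, hout, hin⟩ := hKc Z.J T (xD Z.src Z.tgt (cst Z) B) (wt Z) r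
    (fun τ => Z.vn (pl (Th.x τ 0))) (fun τ => Z.vn (pl (Th.x τ (Th.len τ)))) (oldN Th Z) S0
    (fun τ => geodOf B (wt Z) (wt_le_cst Z) (Gam _ _) (hGam _ _ (hw τ)).2 (hGam _ _ (hw τ)).1)
    (xD_self _ _) (xD_symm _ _) (xD_tri _ _ hB) hr hD
    (hS0.trans (Nat.mul_le_mul_right _ (by omega)))
    (by
      intro τ hτ
      refine (hdist τ).trans ?_
      have h1 := Nat.mul_le_mul_left K1 (hlen2 τ hτ)
      nlinarith)
    (by
      intro j
      have h1 := old_count Th Z (S0 : Set T)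
        (fun τ hτ => (hold τ (fun h => hτ (Finset.mem_coe.2 h))).1) j
      simpa using h1)
    (by
      intro τ hτ j hj
      rw [xD_symm]
      show xD Z.src Z.tgt (cst Z) B (Z.vn (pl (Th.x τ 0))) j ≤ _
      rw [(hold τ hτ).2.1]
      have h1 := old_near hHG Th Z τ (C * r) B hdeg (hold τ hτ).1 j hj
      have h2 := hlen2 τ hτ
      nlinarith)
  refine ⟨S, hS, ?_⟩
  intro R hR hRold τ
  set γ := fun τ => geodOf B (wt Z) (wt_le_cst Z) (Gam (Z.vn (pl (Th.x τ 0)))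
    (Z.vn (pl (Th.x τ (Th.len τ))))) (hGam _ _ (hw τ)).2 (hGam _ _ (hw τ)).1 with hγ
  have hhits : ∀ τ X, (γ τ).hits X = {i | i ≤ (Gam (Z.vn (pl (Th.x τ 0)))
      (Z.vn (pl (Th.x τ (Th.len τ))))).len ∧ (Gam (Z.vn (pl (Th.x τ 0)))
      (Z.vn (pl (Th.x τ (Th.len τ))))).nd i ∈ X}.ncard := fun _ _ => rfl
  have hrl := hlen τ
  by_cases hτ : τ ∈ S
  · -- a new thread
    have h1 : ∀ τ' ∈ (Finset.univ : Finset T),
        (if τ' = τ then 0 else mult R (S : Set T) τ τ') ≤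
        (if τ' ∈ S ∧ ((γ τ').nodes ∩ (γ τ).nodes).Nonempty then 1 else 0) +
        (if τ' ∈ Sᶜ then (γ τ).hits (oldN Th Z τ') else 0) := by
      intro τ' _
      by_cases he : τ' = τ
      · rw [if_pos he]
        exact Nat.zero_le _
      · rw [if_neg he]
        by_cases hτ' : τ' ∈ S
        · have h2 : mult R (S : Set T) τ τ' = min 1 (common (R τ) (R τ')).ncard := by
            rw [mult, if_pos ⟨Finset.mem_coe.2 hτ, Finset.mem_coe.2 hτ'⟩]
          rw [h2]
          by_cases h3 : ((γ τ').nodes ∩ (γ τ).nodes).Nonempty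
          · rw [if_pos ⟨hτ', h3⟩]
            exact (Nat.min_le_left _ _).trans (Nat.le_add_right _ _)
          · have h4 : common (R τ) (R τ') = ∅ := by
              rw [Set.eq_empty_iff_forall_notMem]
              rintro j ⟨⟨s, hs, hj⟩, t, ht, hj'⟩
              apply h3
              rw [hR τ hτ] at hs hj
              rw [hR τ' hτ'] at ht hj'
              exact ⟨j, ⟨t, ht, hj'.symm⟩, ⟨s, hs, hj.symm⟩⟩
            rw [h4, Set.ncard_empty]
            exact Nat.zero_le _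
        · have h2 : mult R (S : Set T) τ τ' = (common (R τ) (R τ')).ncard := by
            rw [mult, if_neg (fun h => hτ' (Finset.mem_coe.1 h.2))]
          rw [h2, if_pos (Finset.mem_compl.2 hτ'), common_comm]
          refine le_trans ?_ (Nat.le_add_left _ _)
          have h5 := common_le_hits (R τ') (R τ) (oldN Th Z τ') (hRold τ' hτ')
          rw [hR τ hτ] at h5 ⊢
          rw [hhits]
          exact h5
    refine (Finset.sum_le_sum h1).trans ?_
    rw [Finset.sum_add_distrib]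
    obtain ⟨_, hmeet, hold'⟩ := hin γ
    have h6 : ∑ τ' : T, (if τ' ∈ S ∧ ((γ τ').nodes ∩ (γ τ).nodes).Nonempty then 1 else 0) ≤
        Kc * (K1 * Th.len τ + r) := by
      rw [← Finset.card_filter]
      have h7 := hmeet τ hτ
      have h8 : ((Finset.univ : Finset T).filter
          (fun τ' => τ' ∈ S ∧ ((γ τ').nodes ∩ (γ τ).nodes).Nonempty)).card =
          {q' | q' ∈ S ∧ ((γ q').nodes ∩ (γ τ).nodes).Nonempty}.ncard := by
        rw [← Set.ncard_coe_finset]
        congr 1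
        ext q
        simp
      rw [h8]
      refine h7.trans (Nat.mul_le_mul_left _ ?_)
      exact Nat.add_le_add_right (hdist τ) _
    have h9 : ∑ τ' : T, (if τ' ∈ Sᶜ then (γ τ).hits (oldN Th Z τ') else 0) ≤
        K1 * Th.len τ + (C + 4) * r := by
      rw [← Finset.sum_filter]
      have h10 : (Finset.univ : Finset T).filter (fun τ' => τ' ∈ Sᶜ) = Sᶜ := by
        ext q
        simp
      rw [h10]
      exact (hold' τ hτ).trans (Nat.add_le_add_right (hdist τ) _)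
    have h11 : Kc * (K1 * Th.len τ + r) ≤ Kc * (K1 + 1) * Th.len τ := by
      rw [Nat.mul_assoc]
      apply Nat.mul_le_mul_left
      nlinarith
    have h12 : (C + 4) * r ≤ (C + 4) * Th.len τ := Nat.mul_le_mul_left _ hrl
    calc _ ≤ Kc * (K1 + 1) * Th.len τ + (K1 * Th.len τ + (C + 4) * Th.len τ) := by omega
      _ = (Kc * (K1 + 1) + (K1 + (C + 4))) * Th.len τ := by ring
      _ ≤ _ := Nat.mul_le_mul_right _ (Nat.le_add_left _ _)
  · -- an old thread
    have h1 : ∀ τ' ∈ (Finset.univ : Finset T),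
        (if τ' = τ then 0 else mult R (S : Set T) τ τ') ≤
        (if τ' = τ ∨ τ' ∈ (S : Set T) then 0 else (oldN Th Z τ ∩ oldN Th Z τ').ncard) +
        (if τ' ∈ S then (γ τ').hits (oldN Th Z τ) else 0) := by
      intro τ' _
      by_cases he : τ' = τ
      · rw [if_pos he]
        exact Nat.zero_le _
      · rw [if_neg he]
        have h2 : mult R (S : Set T) τ τ' = (common (R τ) (R τ')).ncard := by
          rw [mult, if_neg (fun h => hτ (Finset.mem_coe.1 h.1))]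
        rw [h2]
        by_cases hτ' : τ' ∈ S
        · rw [if_pos hτ', hhits]
          refine le_trans ?_ (Nat.le_add_left _ _)
          have h5 := common_le_hits (R τ) (R τ') (oldN Th Z τ) (hRold τ hτ)
          rw [hR τ' hτ'] at h5 ⊢
          exact h5
        · rw [if_neg (by
            rintro (h | h)
            · exact he h
            · exact hτ' (Finset.mem_coe.1 h))]
          refine le_trans ?_ (Nat.le_add_right _ _)
          apply Set.ncard_le_ncard _ (Set.toFinite _)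
          rintro j ⟨⟨s, hs, hj⟩, t, ht, hj'⟩
          refine ⟨?_, ?_⟩
          · rw [← hj]
            exact hRold τ hτ s hs
          · rw [← hj']
            exact hRold τ' hτ' t ht
    refine (Finset.sum_le_sum h1).trans ?_
    rw [Finset.sum_add_distrib]
    have h6 : ∑ τ' : T, (if τ' = τ ∨ τ' ∈ (S : Set T) then 0
        else (oldN Th Z τ ∩ oldN Th Z τ').ncard) ≤ 2 * ((C + 4) * r) + Th.len τ := by
      refine le_trans (le_of_eq ?_) (old_old Th Z (S0 : Set T) (S : Set T) (fun q hq => hS hq)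
        (fun τ hτ => (hold τ (fun h => hτ (Finset.mem_coe.2 h))).1) ((C + 4) * r) hD τ
        (fun h => hτ (Finset.mem_coe.1 h)))
      apply Finset.sum_congr rfl
      intro q _
      by_cases hq : q = τ ∨ q ∈ (S : Set T)
      · rw [if_pos hq, if_pos hq]
      · rw [if_neg hq, if_neg hq]
    have h7 : ∑ τ' : T, (if τ' ∈ S then (γ τ').hits (oldN Th Z τ) else 0) ≤ Kc * r := by
      rw [← Finset.sum_filter]
      have h10 : (Finset.univ : Finset T).filter (fun τ' => τ' ∈ S) = S := by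
        ext q
        simp
      rw [h10]
      exact hout τ hτ
    have h12 : (C + 4) * r ≤ (C + 4) * Th.len τ := Nat.mul_le_mul_left _ hrl
    have h13 : Kc * r ≤ Kc * Th.len τ := Nat.mul_le_mul_left _ hrl
    calc _ ≤ (2 * ((C + 4) * Th.len τ) + Th.len τ) + Kc * Th.len τ := by omega
      _ = (2 * (C + 4) + 1 + Kc) * Th.len τ := by ring
      _ ≤ _ := Nat.mul_le_mul_right _ (Nat.le_add_right _ _)

/-- **Closure and surgery.** `H` is a subgraph of `G` with a planarised drawing `Z` and a layout `L` of its node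
graph; the threads outside `S0` are short, lie in `H` and have fixed ends; the places of the ends of every thread are
joined by a walk of the node graph of cost at most `K1` times the length of the thread. Then `G` is `K`-planar. -/
theorem surg_close_x (C K1 K Kc : ℕ) (hKcd : Kc = clK (C + 4) (2 * K1 + 4 * C + 28))
    (hKd : K = (2 * (C + 4) + 1 + Kc) + (Kc * (K1 + 1) + (K1 + (C + 4)))) : ∀ (V T : Type) [Finite V] [Fintype T]
    (G H : SimpleGraph V) (Th : Threads G T) (Z : Plz H)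
    (_ : Layout Z.J (H.edgeSet × Bool) Z.src Z.tgt), H.edgeSet.Nonempty → H ≤ G →
    ∀ (pl : V → V) (r : ℕ) (S0 : Finset T),
    1 ≤ r → (∀ v, deg G v ≤ C * r) → S0.card ≤ C * r →
    (∀ τ, r ≤ Th.len τ) → (∀ τ, τ ∉ S0 → Th.len τ ≤ 2 * r) →
    (∀ τ, τ ∉ S0 → (∀ t < Th.len τ, H.Adj (Th.x τ t) (Th.x τ (t + 1))) ∧
      pl (Th.x τ 0) = Th.x τ 0 ∧ pl (Th.x τ (Th.len τ)) = Th.x τ (Th.len τ)) →
    (∀ τ, ∃ l, Wk Z.src Z.tgt (Z.vn (pl (Th.x τ 0))) (Z.vn (pl (Th.x τ (Th.len τ)))) l ∧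
      Pool.Agent.Helper83.LN.wcost (fun i => Helper95.UP.dg Z.src Z.tgt (Z.src i) +
        Helper95.UP.dg Z.src Z.tgt (Z.tgt i)) l ≤ K1 * Th.len τ) →
    KPl K G := by
  classical
  have hK := load_bound_x C K1 K Kc hKcd hKd
  intro V T _ _ G H Th Z L hne hHG pl r S0 hr hdeg hS0 hlen hlen2 hold hwalk
  obtain ⟨Gam, hGam, hsurg⟩ := surgery H Z L hne (cst Z)
  obtain ⟨S, hS, hload⟩ := hK V T G H Th Z hHG pl r S0 Gam hGam hr hdeg hS0 hlen hlen2 hold hwalk
  obtain ⟨R, _, hRS, hRold, hKPl⟩ := hsurg G T Th (S : Set T) pl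
    (fun τ hτ => hold τ (fun h => hτ (Finset.mem_coe.2 (hS h))))
    (fun τ _ => by
      obtain ⟨l, hl, _⟩ := hwalk τ
      exact ⟨l, hl⟩)
  apply hKPl K
  have h1 := hload R (fun τ hτ => hRS τ (Finset.mem_coe.2 hτ)) (by
    intro τ hτ t ht
    exact hRold τ (fun h => hτ (Finset.mem_coe.1 h)) t ht)
  intro τ
  exact h1 τ


end Pool.Agent.Helper71.PV
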