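import Pool.Agent.Helper95.UP.Loop

/-!
# PV: insertion of an edge of a short cycle
-/

open Set
open Pool.Agent.Helper83.OP

namespace Pool.Agent.Helper71.PV

/-- a critical graph with a cycle of length less than `ℓ` and degrees at most `D` -/
theorem short_insert {V : Type} [Finite V] (G : SimpleGraph V)
    (hcrit : ∀ e ∈ G.edgeSet, KPl 1 (G.deleteEdges {e})) {x : V} (C : G.Walk x x)
    (hC : C.IsCycle) (ℓ D : ℕ) (hℓ : C.length < ℓ) (hD : ∀ v, deg G v ≤ D) :
    KPl (9 + 4 * ℓ * (D + 4)) G := by
  classical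
  cases C with
  | nil => exact absurd rfl hC.ne_nil
  | @cons _ w _ h P =>
    rw [SimpleGraph.Walk.cons_isCycle_iff] at hC
    obtain ⟨hP, he⟩ := hC
    rw [SimpleGraph.Walk.length_cons] at hℓ
    set T : G.Walk w x := SimpleGraph.Walk.cons h.symm SimpleGraph.Walk.nil with hT
    have hTe : {f | f ∈ T.edges} = {s(w, x)} := by
      rw [hT]
      ext f
      simp
    have hTp : T.IsPath := by
      rw [hT, SimpleGraph.Walk.cons_isPath_iff]
      exact ⟨SimpleGraph.Walk.IsPath.nil, by simpa using h.ne.symm⟩
    have hk1 : KPl 1 (G.deleteEdges {f | f ∈ T.edges}) := by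
      rw [hTe]
      exact hcrit _ h.symm
    have hQ : ∀ f ∈ P.edges, f ∈ (G.deleteEdges {f | f ∈ T.edges}).edgeSet := by
      intro f hf
      rw [SimpleGraph.edgeSet_deleteEdges, hTe]
      refine ⟨SimpleGraph.Walk.edges_subset_edgeSet P hf, ?_⟩
      rintro rfl
      exact he (by rw [Sym2.eq_swap]; exact hf)
    have ha := aug _ hk1 w x h.ne.symm (P.transfer _ hQ) ℓ D (by
      rw [SimpleGraph.Walk.length_transfer]
      omega) (by
      intro z _ _ _
      refine le_trans ?_ (hD z)
      unfold deg
      exact Set.ncard_le_ncard (fun y hy => (SimpleGraph.deleteEdges_le _ hy)) (Set.toFinite _))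
    have := insert_thread G w x h.ne.symm T hTp (by
      intro z hz h1 h2
      rw [hT] at hz
      simp only [SimpleGraph.Walk.support_cons, SimpleGraph.Walk.support_nil, List.mem_cons,
        List.not_mem_nil, or_false] at hz
      rcases hz with hz | hz
      · exact absurd hz h1
      · exact absurd hz h2) _ ha
    obtain ⟨pos, γ, hd, hc⟩ := this
    exact ⟨pos, γ, hd, fun e he => (hc e he).trans (by
      have : max 9 (4 * ℓ * (D + 4)) ≤ 9 + 4 * ℓ * (D + 4) := by omega
      exact_mod_cast this)⟩

end Pool.Agent.Helper71.PV
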