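import Pool.Agent.Helper95.UP.Assemble
import Pool.Agent.Helper71.PV.M1
import Pool.Agent.Helper71.PV.Short
import Pool.Agent.Helper93.UP.LDb
import Pool.Agent.Helper83.LN.Main

/-!
# PV: local comparison of degrees and lengths of threads; surgery for one thread
-/

open Set
open Pool.Agent.Helper83.OP Pool.Agent.Helper83.LN Pool.Agent.Helper93.UP

namespace Pool.Agent.Helper71.PV

/-- an inner vertex of a path has degree at least two -/
theorem two_le_deg {V : Type} [Finite V] (G : SimpleGraph V) {u v : V} (p : G.Walk u v)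
    (hp : p.IsPath) {x : V} (hx : x ∈ p.support) (hxu : x ≠ u) (hxv : x ≠ v) : 2 ≤ deg G x := by
  obtain ⟨i, hi, hil⟩ := SimpleGraph.Walk.mem_support_iff_exists_getVert.1 hx
  have hi0 : i ≠ 0 := by
    rintro rfl
    exact hxu (by rw [← hi, SimpleGraph.Walk.getVert_zero])
  have hiL : i ≠ p.length := by
    rintro rfl
    exact hxv (by rw [← hi, SimpleGraph.Walk.getVert_length])
  obtain ⟨j, rfl⟩ := Nat.exists_eq_succ_of_ne_zero hi0
  have h1 : G.Adj (p.getVert j) (p.getVert (j + 1)) := p.adj_getVert_succ (by omega)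
  have h2 : G.Adj (p.getVert (j + 1)) (p.getVert (j + 1 + 1)) := p.adj_getVert_succ (by omega)
  have hne : p.getVert j ≠ p.getVert (j + 1 + 1) := by
    intro h
    have := hp.getVert_injOn (show j ≤ p.length by omega)
      (show j + 1 + 1 ≤ p.length by omega) h
    omega
  have hi' : p.getVert (j + 1) = x := hi
  rw [hi'] at h1 h2
  have hsub : ({p.getVert j, p.getVert (j + 1 + 1)} : Set V) ⊆ G.neighborSet x := by
    intro y hy
    rcases hy with rfl | rfl
    · exact h1.symm
    · exact h2
  have := Set.ncard_le_ncard hsub (Set.toFinite _)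
  rw [Set.ncard_pair hne] at this
  exact this

/-- induction with a pending prefix `q` which starts at a vertex of degree `≥ 3` -/
private theorem loc_aux {V : Type} [Finite V] (G : SimpleGraph V) (C : ℕ)
    (hr : ∀ u v (p : G.Walk u v), p.IsPath → u ≠ v → 3 ≤ deg G u → 3 ≤ deg G v →
      (∀ x ∈ p.support, x ≠ u → x ≠ v → deg G x = 2) → deg G v ≤ C * p.length)
    {u v : V} (p : G.Walk u v) : ∀ {s : V} (q : G.Walk s u), (q.append p).IsPath → 3 ≤ deg G s →
      (∀ x ∈ q.support, x ≠ s → ¬ 3 ≤ deg G x) →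
      (p.support.tail.map (deg G)).sum ≤ C * (q.length + p.length) + 2 * p.length := by
  induction p with
  | nil =>
    intro s q _ _ _
    simp
  | @cons u w v h p ih =>
    intro s q hq hs hin
    have hqa : ((q.concat h).append p).IsPath := by
      rw [SimpleGraph.Walk.concat_append]
      exact hq
    have hsup : (SimpleGraph.Walk.cons h p).support.tail = w :: p.support.tail := by
      rw [SimpleGraph.Walk.support_cons, List.tail_cons]
      exact (SimpleGraph.Walk.cons_tail_support p).symm
    rw [hsup, List.map_cons, List.sum_cons]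
    have hqc : (q.concat h).IsPath := hqa.of_append_left
    have hws : w ≠ s := by
      intro hws
      have hnd := hqc.support_nodup
      rw [SimpleGraph.Walk.support_concat, List.nodup_append] at hnd
      exact hnd.2.2 s (SimpleGraph.Walk.start_mem_support q) w (by simp) hws.symm
    by_cases hw : 3 ≤ deg G w
    · have hrl : deg G w ≤ C * (q.concat h).length := by
        refine hr s w (q.concat h) hqc (Ne.symm hws) hs hw ?_
        intro x hx hxs hxw
        have hx2 := two_le_deg G (q.concat h) hqc hx hxs hxw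
        have hxq : x ∈ q.support := by
          rw [SimpleGraph.Walk.support_concat, List.mem_append] at hx
          rcases hx with hx | hx
          · exact hx
          · exact absurd (by simpa using hx) hxw
        have := hin x hxq hxs
        omega
      have hi := ih (SimpleGraph.Walk.nil : G.Walk w w)
        (by rw [SimpleGraph.Walk.nil_append]; exact hqa.of_append_right) hw
        (by
          intro x hx hxw
          rw [SimpleGraph.Walk.support_nil, List.mem_singleton] at hx
          exact absurd hx hxw)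
      rw [SimpleGraph.Walk.length_nil] at hi
      rw [SimpleGraph.Walk.length_concat] at hrl
      rw [SimpleGraph.Walk.length_cons]
      have e : C * (q.length + (p.length + 1)) = C * (q.length + 1) + C * (0 + p.length) := by ring
      rw [e]
      omega
    · have hi := ih (q.concat h) hqa hs (by
        intro x hx hxs
        rw [SimpleGraph.Walk.support_concat, List.mem_append] at hx
        rcases hx with hx | hx
        · exact hin x hx hxs
        · have : x = w := by simpa using hx
          rw [this]; exact hw)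
      rw [SimpleGraph.Walk.length_concat] at hi
      rw [SimpleGraph.Walk.length_cons]
      have e : C * (q.length + (p.length + 1)) = C * (q.length + 1 + p.length) := by ring
      rw [e]
      omega

/-- the sum of the degrees on a path which starts at a vertex of degree at least three -/
theorem loc_sum {V : Type} [Finite V] (G : SimpleGraph V) (C : ℕ)
    (hr : ∀ u v (p : G.Walk u v), p.IsPath → u ≠ v → 3 ≤ deg G u → 3 ≤ deg G v →
      (∀ x ∈ p.support, x ≠ u → x ≠ v → deg G x = 2) → deg G v ≤ C * p.length)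
    {u v : V} (p : G.Walk u v) (hp : p.IsPath) (hu : 3 ≤ deg G u) :
    (p.support.map (deg G)).sum ≤ deg G u + (C + 2) * p.length := by
  have h1 := loc_aux G C hr p (SimpleGraph.Walk.nil : G.Walk u u)
    (by rw [SimpleGraph.Walk.nil_append]; exact hp) hu
    (by
      intro x hx hxw
      rw [SimpleGraph.Walk.support_nil, List.mem_singleton] at hx
      exact absurd hx hxw)
  have h2 : p.support = u :: p.support.tail := (SimpleGraph.Walk.cons_tail_support p).symm
  rw [h2, List.map_cons, List.sum_cons]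
  rw [SimpleGraph.Walk.length_nil] at h1
  have e : (C + 2) * p.length = C * (0 + p.length) + 2 * p.length := by ring
  omega

section

variable {V T : Type} {G H : SimpleGraph V}

open Classical in
/-- the crossings of an old curve with the other old curves: its length and the weights of its ends -/
theorem old_old_loc [Finite V] [Fintype T] (Th : Threads G T) (Z : Plz H) (S : Set T)
    (hH : ∀ τ, τ ∉ S → ∀ t < Th.len τ, H.Adj (Th.x τ t) (Th.x τ (t + 1)))
    (τ : T) (hτ : τ ∉ S) :
    ∑ τ' : T, (if τ' = τ ∨ τ' ∈ S then 0 else (oldN Th Z τ ∩ oldN Th Z τ').ncard) ≤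
      wt Z (Z.vn (Th.x τ 0)) + wt Z (Z.vn (Th.x τ (Th.len τ))) + Th.len τ := by
  let bnd : ℕ → Z.J := fun s => if hs : s < Th.len τ then
    Z.bn ⟨s(Th.x τ s, Th.x τ (s + 1)), hH τ hτ s hs⟩ else Z.vn (Th.x τ 0)
  have hbnd : ∀ s (hs : s < Th.len τ),
      bnd s = Z.bn ⟨s(Th.x τ s, Th.x τ (s + 1)), hH τ hτ s hs⟩ := fun s hs => dif_pos hs
  have h1 : ∀ τ' ∈ (Finset.univ : Finset T),
      (if τ' = τ ∨ τ' ∈ S then 0 else (oldN Th Z τ ∩ oldN Th Z τ').ncard) ≤
      (if τ' ∉ S ∧ Z.vn (Th.x τ 0) ∈ oldN Th Z τ' then 1 else 0) +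
      (if τ' ∉ S ∧ Z.vn (Th.x τ (Th.len τ)) ∈ oldN Th Z τ' then 1 else 0) +
      ∑ s ∈ Finset.range (Th.len τ),
        (if (τ' ≠ τ ∧ τ' ∉ S) ∧ bnd s ∈ oldN Th Z τ' then 1 else 0) := by
    intro τ' _
    by_cases h2 : τ' = τ ∨ τ' ∈ S
    · rw [if_pos h2]
      exact Nat.zero_le _
    · rw [if_neg h2]
      have h2a : τ' ≠ τ := fun h => h2 (Or.inl h)
      have h2b : τ' ∉ S := fun h => h2 (Or.inr h)
      have h3 := old_old_one Th Z τ τ' h2a (hH τ hτ) bnd hbnd
      simp only [h2a, h2b, ne_eq, not_false_eq_true, true_and]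
      exact h3
  refine (Finset.sum_le_sum h1).trans ?_
  rw [Finset.sum_add_distrib, Finset.sum_add_distrib, Finset.sum_comm]
  have h5 : ∀ j : Z.J, ∑ τ' : T, (if τ' ∉ S ∧ j ∈ oldN Th Z τ' then 1 else 0) ≤ wt Z j := by
    intro j
    rw [← Finset.card_filter]
    refine le_trans ?_ (old_count Th Z S hH j)
    rw [← Set.ncard_coe_finset]
    apply Set.ncard_le_ncard _ (Set.toFinite _)
    intro τ' h
    exact (Finset.mem_filter.1 (Finset.mem_coe.1 h)).2
  have h6 : ∑ s ∈ Finset.range (Th.len τ), ∑ τ' : T,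
      (if (τ' ≠ τ ∧ τ' ∉ S) ∧ bnd s ∈ oldN Th Z τ' then 1 else 0) ≤
      ∑ s ∈ Finset.range (Th.len τ), 1 := by
    apply Finset.sum_le_sum
    intro s hs
    have hs' := Finset.mem_range.1 hs
    rw [← Finset.card_filter, Finset.card_le_one]
    intro τ1 h1' τ2 h2'
    have g1 := (Finset.mem_filter.1 h1').2
    have g2 := (Finset.mem_filter.1 h2').2
    rw [hbnd s hs'] at g1 g2
    obtain ⟨f1, e1, s1, hs1, k1⟩ := bn_mem_oldN g1.2
    obtain ⟨f2, e2, s2, hs2, k2⟩ := bn_mem_oldN g2.2
    set f : H.edgeSet := ⟨s(Th.x τ s, Th.x τ (s + 1)), hH τ hτ s hs'⟩ with hf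
    have n1 : f1 ≠ f := by
      intro h
      have h' : (f1 : Sym2 V) = s(Th.x τ s, Th.x τ (s + 1)) := by rw [h]
      exact g1.1.1 (Th.uniq τ1 τ s1 s hs1 hs' (k1.symm.trans h')).1
    have n2 : f2 ≠ f := by
      intro h
      have h' : (f2 : Sym2 V) = s(Th.x τ s, Th.x τ (s + 1)) := by rw [h]
      exact g2.1.1 (Th.uniq τ2 τ s2 s hs2 hs' (k2.symm.trans h')).1
    have h12 := Z.pair f f1 f2 n1 n2 e1 e2
    have h' : (f1 : Sym2 V) = f2 := by rw [h12]
    exact (Th.uniq τ1 τ2 s1 s2 hs1 hs2 (k1.symm.trans (h'.trans k2))).1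
  rw [Finset.sum_const, Finset.card_range, smul_eq_mul, mul_one] at h6
  have h7 := h5 (Z.vn (Th.x τ 0))
  have h8 := h5 (Z.vn (Th.x τ (Th.len τ)))
  omega

/-- the number of nodes of an old curve -/
theorem oldN_card (Th : Threads G T) (Z : Plz H) (τ : T)
    (hH : ∀ t < Th.len τ, H.Adj (Th.x τ t) (Th.x τ (t + 1))) :
    (oldN Th Z τ).Finite ∧ (oldN Th Z τ).ncard ≤ 2 * Th.len τ + 1 := by
  classical
  let bnd : ℕ → Z.J := fun s => if hs : s < Th.len τ then
    Z.bn ⟨s(Th.x τ s, Th.x τ (s + 1)), hH s hs⟩ else Z.vn (Th.x τ 0)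
  have hsub : oldN Th Z τ ⊆ (((Finset.range (Th.len τ + 1)).image (fun s => Z.vn (Th.x τ s)) ∪
      (Finset.range (Th.len τ)).image bnd : Finset Z.J) : Set Z.J) := by
    rintro j (⟨s, hs, rfl⟩ | ⟨f, ⟨s, hs, hf⟩, rfl⟩)
    · rw [Finset.mem_coe, Finset.mem_union]
      left
      exact Finset.mem_image_of_mem (fun s => Z.vn (Th.x τ s)) (Finset.mem_range.2 (by omega))
    · rw [Finset.mem_coe, Finset.mem_union]
      right
      have hf' : f = ⟨s(Th.x τ s, Th.x τ (s + 1)), hH s hs⟩ := Subtype.ext hf
      rw [Finset.mem_image]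
      exact ⟨s, Finset.mem_range.2 hs, by rw [hf']; exact dif_pos hs⟩
  refine ⟨(Finset.finite_toSet _).subset hsub, ?_⟩
  refine (Set.ncard_le_ncard hsub (Finset.finite_toSet _)).trans ?_
  rw [Set.ncard_coe_finset]
  refine (Finset.card_union_le _ _).trans ?_
  have h1 : ((Finset.range (Th.len τ + 1)).image (fun s => Z.vn (Th.x τ s))).card ≤
      Th.len τ + 1 := by
    refine Finset.card_image_le.trans ?_
    rw [Finset.card_range]
  have h2 : ((Finset.range (Th.len τ)).image bnd).card ≤ Th.len τ := by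
    refine Finset.card_image_le.trans ?_
    rw [Finset.card_range]
  omega


end

end Pool.Agent.Helper71.PV
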