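import Pool.Agent.Helper71.PV.Single
import Pool.Agent.Helper93.UP.LD

/-!
# PV: threads of arbitrary lengths, logarithmic bound
-/

open Set
open Pool.Agent.Helper83.OP Pool.Agent.Helper71.UT Pool.Agent.Helper95.UP

namespace Pool.Agent.Helper71.PV

/-- a path through the edge `s(x, y)`, cut at this edge -/
theorem split_edge {V : Type} {G : SimpleGraph V} {x y u v : V} (W : G.Walk u v)
    (hW : W.edges.Nodup) (he : s(x, y) ∈ W.edges) :
    (∃ (τ1 : (G.deleteEdges {s(x, y)}).Walk u x) (τ2 : (G.deleteEdges {s(x, y)}).Walk y v),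
      τ1.length + 1 + τ2.length = W.length) ∨
    (∃ (τ1 : (G.deleteEdges {s(x, y)}).Walk u y) (τ2 : (G.deleteEdges {s(x, y)}).Walk x v),
      τ1.length + 1 + τ2.length = W.length) := by
  induction W with
  | nil => simp at he
  | @cons u w v h W' ih =>
    rw [SimpleGraph.Walk.edges_cons, List.nodup_cons] at hW
    by_cases heq : s(u, w) = s(x, y)
    · have hP : ∀ f ∈ W'.edges, f ∈ (G.deleteEdges {s(x, y)}).edgeSet := by
        intro f hf
        rw [SimpleGraph.edgeSet_deleteEdges]
        refine ⟨SimpleGraph.Walk.edges_subset_edgeSet W' hf, ?_⟩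
        rintro rfl
        rw [heq] at hW
        exact hW.1 hf
      rcases Sym2.eq_iff.1 heq with ⟨rfl, rfl⟩ | ⟨rfl, rfl⟩
      · left
        refine ⟨SimpleGraph.Walk.nil, W'.transfer _ hP, ?_⟩
        rw [SimpleGraph.Walk.length_transfer, SimpleGraph.Walk.length_cons,
          SimpleGraph.Walk.length_nil]
        omega
      · right
        refine ⟨SimpleGraph.Walk.nil, W'.transfer _ hP, ?_⟩
        rw [SimpleGraph.Walk.length_transfer, SimpleGraph.Walk.length_cons,
          SimpleGraph.Walk.length_nil]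
        omega
    · have he' : s(x, y) ∈ W'.edges := by
        rw [SimpleGraph.Walk.edges_cons, List.mem_cons] at he
        exact he.resolve_left (Ne.symm heq)
      have hadj : (G.deleteEdges {s(x, y)}).Adj u w := by
        rw [SimpleGraph.deleteEdges_adj]
        exact ⟨h, heq⟩
      rcases ih hW.2 he' with ⟨τ1, τ2, h1⟩ | ⟨τ1, τ2, h1⟩
      · left
        refine ⟨SimpleGraph.Walk.cons hadj τ1, τ2, ?_⟩
        rw [SimpleGraph.Walk.length_cons, SimpleGraph.Walk.length_cons]
        omega
      · right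
        refine ⟨SimpleGraph.Walk.cons hadj τ1, τ2, ?_⟩
        rw [SimpleGraph.Walk.length_cons, SimpleGraph.Walk.length_cons]
        omega

theorem log_c (A C W K : ℕ) (hK : 1561 * (A + 1) ≤ K) (hWA : W ≤ 2 ^ A) (V : Type) [Fintype V]
    (G : SimpleGraph V) (h1 : ¬ KPl 1 G) (hcrit : ∀ e ∈ G.edgeSet, KPl 1 (G.deleteEdges {e}))
    (hthr : ∀ u v (p : G.Walk u v), p.IsPath → u ≠ v → 3 ≤ deg G u → 3 ≤ deg G v →
      (∀ x ∈ p.support, x ≠ u → x ≠ v → deg G x = 2) →
      p.length ≤ W ∧ deg G u ≤ C * p.length) :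
    KPl (16 + (2 * C + (2 * C + 12) * (K + 1) + 2 * C + 4)) G := by
  classical
  -- closed threads
  by_cases hcyc : ∀ (x : V) (D : G.Walk x x), D.IsCycle →
      ∃ u ∈ D.support, ∃ v ∈ D.support, u ≠ v ∧ 3 ≤ deg G u ∧ 3 ≤ deg G v
  swap
  · push Not at hcyc
    obtain ⟨x, D, hD, hno⟩ := hcyc
    refine kpl_le (loop16 G hcrit D hD ?_) (by omega)
    rintro ⟨u, hu, v, hv, huv, h2, h3⟩
    exact absurd (hno u hu v hv huv h2) (by omega)
  refine kpl_le ?_ (show (2 * C + (2 * C + 12) * (K + 1)) + 2 * C + 4 ≤ _ by omega)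
  have hdeg := crit_deg G h1 hcrit
  have hend : ∀ u v (p : G.Walk u v), p.IsPath → u ≠ v → 3 ≤ deg G u → 3 ≤ deg G v →
      (∀ x ∈ p.support, x ≠ u → x ≠ v → deg G x = 2) → deg G v ≤ C * p.length := by
    intro u v p hp huv hu hv hin
    have := (hthr v u p.reverse hp.reverse huv.symm hv hu (by
      intro x hx h2 h3
      rw [SimpleGraph.Walk.support_reverse, List.mem_reverse] at hx
      exact hin x hx h3 h2)).2
    rwa [SimpleGraph.Walk.length_reverse] at this
  have hup : ∀ u v (p : G.Walk u v), p.IsPath →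
      (∀ x ∈ p.support, x ≠ u → x ≠ v → deg G x = 2) → p.length ≤ W :=
    fun u v p hp hin => path_le G W hdeg hcyc
      (fun u v p hp huv hu hv hin => (hthr u v p hp huv hu hv hin).1) p hp hin
  have hne : ∃ e0, e0 ∈ G.edgeSet := by
    by_contra hcon
    push Not at hcon
    have : G = ⊥ := by
      rw [← SimpleGraph.edgeSet_eq_empty]
      exact Set.eq_empty_of_forall_notMem hcon
    exact h1 (this ▸ kpl_bot 1)
  obtain ⟨e0, he0⟩ := hne
  obtain ⟨pos, γ, hd, hc⟩ := hcrit e0 he0
  obtain ⟨x, D, hD, hsc⟩ := short_cycle_lin A G e0 (CrossRel γ) 0 W K he0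
      (fun f hf hf0 => partner_le G e0 γ hc f hf hf0) (planarLike_of_drawing _ pos γ hd) hdeg
      hup (by simpa using hWA) hK
  -- the threads
  obtain ⟨Q, hQ, ⟨Ct⟩⟩ := exists_cut (G := G) (M := {v | deg G v ≠ 2}) (fun v hv => hv) (by
      intro x C hC
      obtain ⟨u, hu, v, hv, huv, h1, h2⟩ := hcyc x C hC
      exact ⟨u, hu, v, hv, huv, by simp only [Set.mem_setOf_eq]; omega,
        by simp only [Set.mem_setOf_eq]; omega⟩)
  have hpos3 : ∀ q z, z ∈ (Ct.sg.T q).support → deg G z ≠ 2 → 3 ≤ deg G z := by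
    intro q z hz hz2
    obtain ⟨w, hw⟩ := exists_edge (Ct.sg.T q) (Ct.sg.ne q) hz
    have hadj : G.Adj z w := SimpleGraph.Walk.edges_subset_edgeSet _ hw
    have h3 : deg G z ≠ 0 := by
      intro h4
      rw [deg, Set.ncard_eq_zero (Set.toFinite _)] at h4
      have : w ∈ G.neighborSet z := hadj
      rw [h4] at this
      exact this
    have := hdeg z
    omega
  have ha3 : ∀ q, 3 ≤ deg G (Ct.sg.a q) := fun q =>
    hpos3 q _ (SimpleGraph.Walk.start_mem_support _) (Ct.ma q)
  have hb3 : ∀ q, 3 ≤ deg G (Ct.sg.b q) := fun q =>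
    hpos3 q _ (SimpleGraph.Walk.end_mem_support _) (Ct.mb q)
  cases D with
  | nil => exact absurd rfl hD.ne_nil
  | @cons _ y _ h P =>
    rw [SimpleGraph.Walk.cons_isCycle_iff] at hD
    obtain ⟨hP, hPe⟩ := hD
    rw [SimpleGraph.Walk.length_cons] at hsc
    obtain ⟨q0, hq0⟩ := Ct.sg.cover s(x, y) h
    have hl1 : 1 ≤ (Ct.sg.T q0).length := by
      rcases Nat.eq_zero_or_pos (Ct.sg.T q0).length with h0 | h0
      · exact absurd (SimpleGraph.Walk.eq_of_length_eq_zero h0) (Ct.sg.ne q0)
      · exact h0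
    -- the cycle is short in comparison with the thread
    have hshort : P.length + 1 ≤ K * (Ct.sg.T q0).length := by
      rcases hsc with h2 | h2
      · calc P.length + 1 ≤ K * 1 := by omega
          _ ≤ K * (Ct.sg.T q0).length := Nat.mul_le_mul_left _ hl1
      · have hxs : x ∈ (Ct.sg.T q0).support := SimpleGraph.Walk.fst_mem_support_of_mem_edges _ hq0
        have hfar : (P.length + 1) / K < (Ct.sg.T q0).length := by
          by_contra hcon
          push Not at hcon
          have h3 : (Ct.sg.a q0, (Ct.sg.T q0).snd) ∈ {e : V × V | e.1 ∈ ball G x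
              ((P.length + 1) / K) ∧ 3 ≤ deg G e.1 ∧ G.Adj e.1 e.2} := by
            refine ⟨⟨((Ct.sg.T q0).takeUntil x hxs).reverse, ?_⟩, ha3 q0, ?_⟩
            · rw [SimpleGraph.Walk.length_reverse]
              exact ((Ct.sg.T q0).length_takeUntil_le hxs).trans hcon
            · refine (Ct.sg.T q0).adj_snd ?_
              intro hnil
              have := SimpleGraph.Walk.nil_iff_length_eq.1 hnil
              omega
          have h4 : vol G (ball G x ((P.length + 1) / K)) = 0 := by omega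
          unfold vol at h4
          rw [Set.ncard_eq_zero (Set.toFinite _)] at h4
          rw [h4] at h3
          exact h3
        have hKp : 0 < K := by omega
        rw [Nat.div_lt_iff_lt_mul hKp] at hfar
        rw [Nat.mul_comm]
        exact hfar.le
    -- the walk
    have hPH : ∀ f ∈ P.edges, f ∈ (G.deleteEdges {s(x, y)}).edgeSet := by
      intro f hf
      rw [SimpleGraph.edgeSet_deleteEdges]
      refine ⟨SimpleGraph.Walk.edges_subset_edgeSet P hf, ?_⟩
      rintro rfl
      exact hPe hf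
    obtain ⟨p, hp⟩ : ∃ p : (G.deleteEdges {s(x, y)}).Walk (Ct.sg.a q0) (Ct.sg.b q0),
        p.length ≤ (K + 1) * (Ct.sg.T q0).length := by
      have e : (K + 1) * (Ct.sg.T q0).length = K * (Ct.sg.T q0).length + (Ct.sg.T q0).length := by
        ring
      rcases split_edge (Ct.sg.T q0) (Ct.sg.path q0).isTrail.edges_nodup hq0 with
        ⟨τ1, τ2, h2⟩ | ⟨τ1, τ2, h2⟩
      · refine ⟨(τ1.append (P.transfer _ hPH).reverse).append τ2, ?_⟩
        rw [SimpleGraph.Walk.length_append, SimpleGraph.Walk.length_append,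
          SimpleGraph.Walk.length_reverse, SimpleGraph.Walk.length_transfer]
        omega
      · refine ⟨(τ1.append (P.transfer _ hPH)).append τ2, ?_⟩
        rw [SimpleGraph.Walk.length_append, SimpleGraph.Walk.length_append,
          SimpleGraph.Walk.length_transfer]
        omega
    have hQf : Fintype Q := Fintype.ofFinite Q
    obtain ⟨pos', γ', hd', hc'⟩ := hcrit s(x, y) h
    obtain ⟨Z, ⟨PZ⟩⟩ := planarize (G.deleteEdges {s(x, y)}) pos' γ' hd' (by
      intro f hf
      have := hc' f hf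
      exact_mod_cast this)
    have hJ : Finite Z.J := Z.fin
    have hst : ∀ i, Z.src i ≠ Z.tgt i := by
      rintro ⟨f, b⟩
      cases b
      · exact Z.vn_ne _ _
      · exact (Z.vn_ne _ _).symm
    obtain ⟨L⟩ := exists_layout hst PZ
    have hle : G.deleteEdges {s(x, y)} ≤ G := SimpleGraph.deleteEdges_le _
    have hHne : (G.deleteEdges {s(x, y)}).edgeSet.Nonempty := by
      cases P with
      | nil => exact absurd rfl h.ne
      | @cons _ z _ h' P' => exact ⟨s(y, z), hPH _ (by simp)⟩
    obtain ⟨l, hl, hlc⟩ := Pool.Agent.Helper93.UP.walk_cost Z p.bypass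
    have hb : p.bypass.length ≤ p.length := p.length_bypass_le_length
    have h2 : (p.bypass.support.map (deg (G.deleteEdges {s(x, y)}))).sum ≤
        (p.bypass.support.map (deg G)).sum := sum_deg_mono hle _
    have h3 := loc_sum G C hend (p.bypass.mapLe hle)
      ((SimpleGraph.Walk.isPath_mapLe _).2 p.bypass_isPath) (ha3 q0)
    rw [SimpleGraph.Walk.support_mapLe_eq_support, SimpleGraph.Walk.length_map] at h3
    have hthr0 := fun q => hthr _ _ (Ct.sg.T q) (Ct.sg.path q) (Ct.sg.ne q) (ha3 q) (hb3 q)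
      (Ct.sg.inner q)
    have hend0 := fun q => hend _ _ (Ct.sg.T q) (Ct.sg.path q) (Ct.sg.ne q) (ha3 q) (hb3 q)
      (Ct.sg.inner q)
    refine surg_single G (G.deleteEdges {s(x, y)}) (toThreads Ct.sg) Z L hHne hle q0 C
      (2 * C + (2 * C + 12) * (K + 1)) ?_ ?_ l ?_ ?_
    · intro q hq t ht
      have hadj := (toThreads Ct.sg).adj q t ht
      rw [SimpleGraph.deleteEdges_adj]
      refine ⟨hadj, ?_⟩
      intro h4
      rw [Set.mem_singleton_iff] at h4
      apply hq
      refine Ct.sg.disj q q0 s(x, y) ?_ hq0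
      rw [toThreads_edges]
      exact ⟨t, ht, h4.symm⟩
    · intro q
      rw [toThreads_zero, toThreads_last, toThreads_len]
      exact ⟨(hthr0 q).2, hend0 q⟩
    · rw [toThreads_zero, toThreads_last]
      exact hl
    · rw [toThreads_len]
      refine hlc.trans ?_
      have h5 : deg G (Ct.sg.a q0) ≤ C * (Ct.sg.T q0).length := (hthr0 q0).2
      have h6 : (Ct.sg.T q0).length = Ct.sg.len q0 := rfl
      rw [h6] at h5 hp
      have h7 : (2 * (C + 2) + 8) * p.bypass.length ≤
          (2 * (C + 2) + 8) * ((K + 1) * Ct.sg.len q0) := Nat.mul_le_mul_left _ (hb.trans hp)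
      calc 2 * (p.bypass.support.map (deg (G.deleteEdges {s(x, y)}))).sum +
            8 * p.bypass.length
          ≤ 2 * (C * Ct.sg.len q0 + (C + 2) * p.bypass.length) + 8 * p.bypass.length := by omega
        _ = 2 * (C * Ct.sg.len q0) + (2 * (C + 2) + 8) * p.bypass.length := by ring
        _ ≤ 2 * (C * Ct.sg.len q0) + (2 * (C + 2) + 8) * ((K + 1) * Ct.sg.len q0) :=
          Nat.add_le_add_left h7 _
        _ = (2 * C + (2 * C + 12) * (K + 1)) * Ct.sg.len q0 := by ring

/-- critical graphs in which the degrees of the ends of every thread are at most `C` times its length, all threads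
have at most `W` edges -/
theorem main_log : ∃ c : ℕ, ∀ (C W : ℕ) (V : Type) [Fintype V] (G : SimpleGraph V), ¬ KPl 1 G →
    (∀ e ∈ G.edgeSet, KPl 1 (G.deleteEdges {e})) →
    (∀ u v (p : G.Walk u v), p.IsPath → u ≠ v → 3 ≤ deg G u → 3 ≤ deg G v →
      (∀ x ∈ p.support, x ≠ u → x ≠ v → deg G x = 2) →
      p.length ≤ W ∧ deg G u ≤ C * p.length) →
    KPl (c * ((C + 1) * (Nat.log 2 W + 1))) G := by
  refine ⟨60000, fun C W V _ G h1 hcrit hthr => ?_⟩
  obtain ⟨a, ha⟩ : ∃ a, a = Nat.log 2 W + 1 := ⟨_, rfl⟩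
  have hW : W ≤ 2 ^ a := by
    rw [ha]
    exact (Nat.lt_pow_succ_log_self (by norm_num) W).le
  have ha1 : 1 ≤ a := by omega
  rw [← ha]
  refine kpl_le (log_c a C W (1561 * (a + 1)) le_rfl hW V G h1 hcrit hthr) ?_
  have h2 : (2 * C + 12) * (1561 * (a + 1) + 1) ≤ (12 * (C + 1)) * (3123 * a) :=
    Nat.mul_le_mul (by omega) (by omega)
  have h3 : C + 1 ≤ (C + 1) * a := Nat.le_mul_of_pos_right _ (by omega)
  have h4 : (12 * (C + 1)) * (3123 * a) = 37476 * ((C + 1) * a) := by ring
  rw [h4] at h2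
  generalize (2 * C + 12) * (1561 * (a + 1) + 1) = u1 at *
  generalize (C + 1) * a = u2 at *
  omega

end Pool.Agent.Helper71.PV
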