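import Pool.Agent.Helper95.UP.Assemble
import Pool.Agent.Helper71.PV.M1
import Pool.Agent.Helper71.PV.SC
import Pool.Agent.Helper71.PV.Short

/-!
# PV: 1-planar-critical graphs, a bound polynomial in the parameters
-/

open Set
open Pool.Agent.Helper83.OP
open Pool.Agent.Helper71.UT Pool.Agent.Helper95.UP

namespace Pool.Agent.Helper71.PV

/-- the constant of `main_c` -/
def kk (A C K : ℕ) : ℕ :=
  (2 * (C + 4 + 4) + 1 + clK (C + 4 + 4) (2 * ((2 * C + 12) * (100 * K + 1)) + 4 * (C + 4) + 28)) +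
    (clK (C + 4 + 4) (2 * ((2 * C + 12) * (100 * K + 1)) + 4 * (C + 4) + 28) *
      ((2 * C + 12) * (100 * K + 1) + 1) + ((2 * C + 12) * (100 * K + 1) + (C + 4 + 4)))

theorem main_c (A C K : ℕ) (hKA : K = 1561 * (A + 1)) (V : Type) [Fintype V] (G : SimpleGraph V)
    (r : ℕ) (h1 : ¬ KPl 1 G) (hcrit : ∀ e ∈ G.edgeSet, KPl 1 (G.deleteEdges {e}))
    (hthr : ThrLen G r ((r + 1) ^ A)) (hdegr : ∀ v, deg G v ≤ C * r) :
    KPl (16 + (9 + 4 * (64 * K) * (C * (64 * K) + 4)) + kk A C K) G := by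
  classical
  have hK : 1 ≤ K := by omega
  -- closed threads
  by_cases hcyc : ∀ (x : V) (D : G.Walk x x), D.IsCycle →
      ∃ u ∈ D.support, ∃ v ∈ D.support, u ≠ v ∧ 3 ≤ deg G u ∧ 3 ≤ deg G v
  swap
  · push Not at hcyc
    obtain ⟨x, D, hD, hno⟩ := hcyc
    refine kpl_le (loop16 G hcrit D hD ?_) (by omega)
    rintro ⟨u, hu, v, hv, huv, h2, h3⟩
    exact absurd (hno u hu v hv huv h2) (by omega)
  have hdeg := crit_deg G h1 hcrit
  have hlow : ∀ u v (p : G.Walk u v), p.IsPath → u ≠ v → 3 ≤ deg G u → 3 ≤ deg G v →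
      (∀ x ∈ p.support, x ≠ u → x ≠ v → deg G x = 2) → r ≤ p.length :=
    fun u v p hp huv hu hv hin => (hthr u v p hp huv hu hv hin).1
  have hup : ∀ u v (p : G.Walk u v), p.IsPath →
      (∀ x ∈ p.support, x ≠ u → x ≠ v → deg G x = 2) → p.length ≤ (r + 1) ^ A :=
    fun u v p hp hin => path_le G ((r + 1) ^ A) hdeg hcyc
      (fun u v p hp huv hu hv hin => (hthr u v p hp huv hu hv hin).2) p hp hin
  have hne : ∃ e0, e0 ∈ G.edgeSet := by
    by_contra hcon
    push Not at hcon
    have : G = ⊥ := by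
      rw [← SimpleGraph.edgeSet_eq_empty]
      exact Set.eq_empty_of_forall_notMem hcon
    exact h1 (this ▸ kpl_bot 1)
  obtain ⟨e0, he0⟩ := hne
  have hr1 : 1 ≤ r := by
    by_contra hcon
    have hr0 : r = 0 := by omega
    subst hr0
    induction e0 with
    | h a b =>
      have h2 := hdegr a
      have h3 : deg G a ≠ 0 := by
        unfold deg
        rw [Ne, Set.ncard_eq_zero (Set.toFinite _)]
        intro h4
        have : b ∈ G.neighborSet a := he0
        rw [h4] at this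
        exact this
      omega
  -- short cycles
  by_cases hg : ∀ (x : V) (D : G.Walk x x), D.IsCycle → 64 * K ≤ D.length
  swap
  · push Not at hg
    obtain ⟨x, D, hD, hlt⟩ := hg
    obtain ⟨u, hu, v, hv, huv, h2, h3⟩ := hcyc x D hD
    have h4 := cycle_len G r hlow D hD hu hv huv h2 h3
    refine kpl_le (short_insert G hcrit D hD (64 * K) (C * (64 * K)) hlt (fun v => ?_)) (by omega)
    exact (hdegr v).trans (Nat.mul_le_mul_left _ (by omega))
  refine kpl_le ?_ (show kk A C K ≤ _ by omega)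
  obtain ⟨pos, γ, hd, hc⟩ := hcrit e0 he0
  have hsc : ∃ (x : V) (C : G.Walk x x), C.IsCycle ∧ vol G (ball G x (C.length / K)) ≤ 3 * r := by
    obtain ⟨x, Z, hZ, h⟩ := short_cycle_lin A G e0 (CrossRel γ) r ((r + 1) ^ A) K he0
      (fun f hf hf0 => partner_le G e0 γ hc f hf hf0) (planarLike_of_drawing _ pos γ hd) hdeg
      hup (Nat.pow_le_pow_left (by omega) _) hKA.ge
    rcases h with h | h
    · exact absurd (hg x Z hZ) (by omega)
    · exact ⟨x, Z, hZ, h⟩
  obtain ⟨e, x, S, pl, he, hxe, hxS, hplS, hvol, hconn, hwalk⟩ :=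
    places K hK V G (3 * r) hsc hg
  obtain ⟨Q, hQ, Sg, S0, hlen, hlen2, hS0, hS0c⟩ :=
    marks G r hr1 hdeg hlow hcyc S x hconn
  have hQf : Fintype Q := Fintype.ofFinite Q
  -- the planarised drawing
  obtain ⟨pos', γ', hd', hc'⟩ := hcrit e he
  obtain ⟨Z, ⟨PZ⟩⟩ := planarize (G.deleteEdges {e}) pos' γ' hd' (by
    intro f hf
    have := hc' f hf
    exact_mod_cast this)
  have hJ : Finite Z.J := Z.fin
  have hst : ∀ i, Z.src i ≠ Z.tgt i := by
    rintro ⟨f, b⟩
    cases b
    · exact Z.vn_ne _ _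
    · exact (Z.vn_ne _ _).symm
  obtain ⟨L⟩ := exists_layout hst PZ
  have hHne : (G.deleteEdges {e}).edgeSet.Nonempty := by
    obtain ⟨z, D, hD, -⟩ := hsc
    have h3 := hD.three_le_length
    have hnd := hD.isTrail.edges_nodup
    by_contra hcon
    rw [Set.not_nonempty_iff_eq_empty] at hcon
    have hall : ∀ f ∈ D.edges, f = e := by
      intro f hf
      by_contra hfe
      have : f ∈ (G.deleteEdges {e}).edgeSet := by
        rw [SimpleGraph.edgeSet_deleteEdges]
        exact ⟨SimpleGraph.Walk.edges_subset_edgeSet D hf, hfe⟩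
      rw [hcon] at this
      exact this
    have h4 : D.edges.length ≤ 1 := by
      have h5 := (hnd.subperm (l₂ := [e]) (fun f hf => by simp [hall f hf])).length_le
      simpa using h5
    rw [SimpleGraph.Walk.length_edges] at h4
    omega
  have hle : G.deleteEdges {e} ≤ G := SimpleGraph.deleteEdges_le _
  obtain ⟨Kc, hKc⟩ : ∃ Kc, Kc = clK (C + 4 + 4)
    (2 * ((2 * C + 12) * (100 * K + 1)) + 4 * (C + 4) + 28) := ⟨_, rfl⟩
  refine surg_close_x (C + 4) ((2 * C + 12) * (100 * K + 1)) (kk A C K) Kc hKc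
    (by rw [kk, ← hKc]) V Q G (G.deleteEdges {e}) (toThreads Sg) Z L hHne hle pl r
    (Set.toFinite S0).toFinset hr1 ?_ ?_ ?_ ?_ ?_ ?_
  · intro v
    exact (hdegr v).trans (Nat.mul_le_mul_right _ (by omega))
  · rw [← Set.ncard_eq_toFinset_card]
    calc S0.ncard ≤ vol G S + 1 := hS0c
      _ ≤ 3 * r + r := by omega
      _ = 4 * r := by ring
      _ ≤ (C + 4) * r := Nat.mul_le_mul_right _ (by omega)
  · intro q
    rw [toThreads_len]
    exact hlen q
  · intro q hq
    rw [Set.Finite.mem_toFinset] at hq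
    rw [toThreads_len]
    exact (hlen2 q hq).le
  · intro q hq
    rw [Set.Finite.mem_toFinset, hS0] at hq
    push Not at hq
    refine ⟨?_, ?_, ?_⟩
    · intro t ht
      have hadj := (toThreads Sg).adj q t ht
      rw [SimpleGraph.deleteEdges_adj]
      refine ⟨hadj, ?_⟩
      intro h2
      rw [Set.mem_singleton_iff] at h2
      rw [← h2, Sym2.mem_iff] at hxe
      rcases hxe with h3 | h3
      · exact hq _ ((toThreads_support Sg q _).2 ⟨t, ht.le, rfl⟩) (h3 ▸ hxS)
      · exact hq _ ((toThreads_support Sg q _).2 ⟨t + 1, ht, rfl⟩) (h3 ▸ hxS)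
    · exact hplS _ (hq _ ((toThreads_support Sg q _).2 ⟨0, Nat.zero_le _, rfl⟩))
    · exact hplS _ (hq _ ((toThreads_support Sg q _).2 ⟨_, le_rfl, rfl⟩))
  · intro q
    rw [toThreads_zero, toThreads_last, toThreads_len]
    obtain ⟨p, hp⟩ := hwalk _ _ (Sg.T q) (Sg.path q) (Sg.ne q) (Sg.inner q)
    obtain ⟨l, hl, hlc⟩ := Pool.Agent.Helper93.UP.walk_cost Z p.bypass
    refine ⟨l, hl, hlc.trans ?_⟩
    have hb : p.bypass.length ≤ p.length := p.length_bypass_le_length
    have h2 : (p.bypass.support.map (deg (G.deleteEdges {e}))).sum ≤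
        (p.bypass.support.map (deg G)).sum := sum_deg_mono hle _
    have h3 := deg_sum G r C hr1 hlow hdegr (p.bypass.mapLe hle)
      ((SimpleGraph.Walk.isPath_mapLe _).2 p.bypass_isPath)
    rw [SimpleGraph.Walk.support_mapLe_eq_support, SimpleGraph.Walk.length_map] at h3
    have h4 : r ≤ Sg.len q := hlen q
    have h5 : (Sg.T q).length = Sg.len q := rfl
    rw [h5] at hp
    have h6 : p.bypass.length + r ≤ (100 * K + 1) * Sg.len q := by
      calc p.bypass.length + r ≤ 100 * K * Sg.len q + Sg.len q := by omega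
        _ = (100 * K + 1) * Sg.len q := by ring
    calc 2 * (p.bypass.support.map (deg (G.deleteEdges {e}))).sum + 8 * p.bypass.length
        ≤ 2 * ((C + 2) * (p.bypass.length + r)) + 8 * (p.bypass.length + r) := by omega
      _ = (2 * C + 12) * (p.bypass.length + r) := by ring
      _ ≤ (2 * C + 12) * ((100 * K + 1) * Sg.len q) := Nat.mul_le_mul_left _ h6
      _ = (2 * C + 12) * (100 * K + 1) * Sg.len q := by ring

end Pool.Agent.Helper71.PV
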