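import Pool.Agent.Helper71.PV.Main

/-!
# PV: the constant is polynomial
-/

open Set
open Pool.Agent.Helper83.OP Pool.Agent.Helper95.UP

namespace Pool.Agent.Helper71.PV

theorem clK_le (m c k : ℕ) (h1 : k + 2 ≤ m) (h2 : c + 4 ≤ m) : clK c k ≤ 5 * m ^ 6 := by
  have hm : 1 ≤ m := by omega
  have e1 : (k + 1) ^ 4 * (k + c) ≤ m ^ 4 * (2 * m) :=
    Nat.mul_le_mul (Nat.pow_le_pow_left (by omega) 4) (by omega)
  have e2 : (k + 2) ^ 2 * ((k + 1) ^ 2 * (4 + c) * c) ≤ m ^ 2 * (m ^ 2 * m * m) :=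
    Nat.mul_le_mul (Nat.pow_le_pow_left (by omega) 2)
      (Nat.mul_le_mul (Nat.mul_le_mul (Nat.pow_le_pow_left (by omega) 2) (by omega)) (by omega))
  have e3 : m ^ 5 ≤ m ^ 6 := Nat.pow_le_pow_right hm (by norm_num)
  have e4 : m ≤ m ^ 6 := by
    calc m = m ^ 1 := (pow_one m).symm
      _ ≤ m ^ 6 := Nat.pow_le_pow_right hm (by norm_num)
  have e5 : 1 ≤ m ^ 6 := Nat.one_le_pow _ _ hm
  have e6 : m ^ 4 * (2 * m) = 2 * m ^ 5 := by ring
  have e7 : m ^ 2 * (m ^ 2 * m * m) = m ^ 6 := by ring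
  unfold clK
  rw [e6] at e1
  rw [e7] at e2
  generalize (k + 1) ^ 4 * (k + c) = u1 at *
  generalize (k + 2) ^ 2 * ((k + 1) ^ 2 * (4 + c) * c) = u2 at *
  omega

theorem kk_le (A C K m y : ℕ) (hK : K = 1561 * (A + 1)) (hy : y = (A + 1) * (C + 1))
    (hm : m = 4000000 * y) :
    16 + (9 + 4 * (64 * K) * (C * (64 * K) + 4)) + kk A C K ≤ 50 * m ^ 7 := by
  have hy1 : A + 1 ≤ y := by rw [hy]; exact Nat.le_mul_of_pos_right _ (by omega)
  have hy2 : C + 1 ≤ y := by rw [hy]; exact Nat.le_mul_of_pos_left _ (by omega)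
  obtain ⟨K1, hK1⟩ : ∃ K1, K1 = (2 * C + 12) * (100 * K + 1) := ⟨_, rfl⟩
  have h1 : K1 ≤ 1873212 * y := by
    rw [hK1, hK, hy]
    calc (2 * C + 12) * (100 * (1561 * (A + 1)) + 1) ≤ (12 * (C + 1)) * (156101 * (A + 1)) :=
          Nat.mul_le_mul (by omega) (by omega)
      _ = 1873212 * ((A + 1) * (C + 1)) := by ring
  have hcl := clK_le m (C + 4 + 4) (2 * K1 + 4 * (C + 4) + 28) (by omega) (by omega)
  have hm1 : 1 ≤ m := by omega
  unfold kk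
  rw [← hK1]
  generalize clK (C + 4 + 4) (2 * K1 + 4 * (C + 4) + 28) = Kc at *
  have e1 : Kc * (K1 + 1) ≤ 5 * m ^ 6 * m := Nat.mul_le_mul hcl (by omega)
  have e2 : 4 * (64 * K) * (C * (64 * K) + 4) ≤ 4 * m * (m * m) := by
    have e3 : C * (64 * K) + 4 ≤ (C + 4) * (64 * K) := by
      have : 1 ≤ 64 * K := by omega
      nlinarith
    refine Nat.mul_le_mul (Nat.mul_le_mul_left _ (by omega)) (e3.trans ?_)
    exact Nat.mul_le_mul (by omega) (by omega)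
  have e3 : m ^ 3 ≤ m ^ 7 := Nat.pow_le_pow_right hm1 (by norm_num)
  have e4 : m ^ 6 ≤ m ^ 7 := Nat.pow_le_pow_right hm1 (by norm_num)
  have e5 : m ≤ m ^ 7 := by
    calc m = m ^ 1 := (pow_one m).symm
      _ ≤ m ^ 7 := Nat.pow_le_pow_right hm1 (by norm_num)
  have e6 : 5 * m ^ 6 * m = 5 * m ^ 7 := by ring
  have e7 : 4 * m * (m * m) = 4 * m ^ 3 := by ring
  rw [e6] at e1
  rw [e7] at e2
  generalize Kc * (K1 + 1) = u1 at *
  generalize 4 * (64 * K) * (C * (64 * K) + 4) = u2 at *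
  generalize m ^ 6 = u3 at *
  generalize m ^ 7 = u4 at *
  generalize m ^ 3 = u5 at *
  omega

/-- 1-planar-critical graphs with threads of length between `r` and `(r + 1) ^ A` and degrees at
most `C * r` -/
theorem main_poly : ∃ c : ℕ, ∀ (A C : ℕ) (V : Type) [Fintype V] (G : SimpleGraph V) (r : ℕ),
    ¬ KPl 1 G → (∀ e ∈ G.edgeSet, KPl 1 (G.deleteEdges {e})) → ThrLen G r ((r + 1) ^ A) →
    (∀ v, deg G v ≤ C * r) → KPl (c * ((A + 1) * (C + 1)) ^ 7) G := by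
  refine ⟨50 * 4000000 ^ 7, fun A C V _ G r h1 hcrit hthr hdeg => ?_⟩
  refine kpl_le (main_c A C _ rfl V G r h1 hcrit hthr hdeg)
    ((kk_le A C _ _ _ rfl rfl rfl).trans (le_of_eq ?_))
  rw [mul_pow, Nat.mul_assoc]

end Pool.Agent.Helper71.PV
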