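import Pool.Agent.Helper71.PV.Loc

/-!
# PV: one thread is redrawn along a cheap walk
-/

open Set
open Pool.Agent.Helper83.OP Pool.Agent.Helper83.LN Pool.Agent.Helper93.UP

namespace Pool.Agent.Helper71.PV

theorem sum_wt_route {V : Type} {H : SimpleGraph V} (Z : Plz H)
    (R : Rt Z.J (H.edgeSet × Bool) Z.src Z.tgt) :
    ∑ i ∈ Finset.range (R.len + 1), wt Z (R.nd i) ≤ wt Z (R.nd 0) + R.cost (cst Z) := by
  have key : ∀ m, m ≤ R.len → ∑ i ∈ Finset.range (m + 1), wt Z (R.nd i) ≤
      wt Z (R.nd 0) + ∑ k ∈ Finset.range m, cst Z (R.ar k) := by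
    intro m
    induction m with
    | zero => intro _; simp
    | succ m ih =>
      intro hm
      rw [Finset.sum_range_succ, Finset.sum_range_succ (fun k => cst Z (R.ar k))]
      have h1 := ih (by omega)
      have h2 := wt_le_cst Z (R.ar m) (!R.dir m)
      rw [R.snd m (by omega)] at h2
      omega
  exact key R.len le_rfl

open Classical in
/-- **One new thread.** All threads but `τ0` lie in `H` and stay; `τ0` is redrawn along a walk of cost at most
`K` times its length; the degrees of the ends of every thread are at most `C` times its length. -/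
theorem surg_single {V T : Type} [Finite V] [Fintype T] (G H : SimpleGraph V) (Th : Threads G T)
    (Z : Plz H) (L : Layout Z.J (H.edgeSet × Bool) Z.src Z.tgt) (hne : H.edgeSet.Nonempty)
    (hHG : H ≤ G) (τ0 : T) (C K : ℕ)
    (hold : ∀ τ, τ ≠ τ0 → ∀ t < Th.len τ, H.Adj (Th.x τ t) (Th.x τ (t + 1)))
    (hends : ∀ τ, deg G (Th.x τ 0) ≤ C * Th.len τ ∧ deg G (Th.x τ (Th.len τ)) ≤ C * Th.len τ)
    (l : List ((H.edgeSet × Bool) × Bool))
    (hl : Wk Z.src Z.tgt (Z.vn (Th.x τ0 0)) (Z.vn (Th.x τ0 (Th.len τ0))) l)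
    (hc : wcost (cst Z) l ≤ K * Th.len τ0) : KPl (K + 2 * C + 4) G := by
  obtain ⟨Gam, hGam, hsurg⟩ := surgery H Z L hne (cst Z)
  obtain ⟨R, _, hRS, hRold, hKPl⟩ := hsurg G T Th ({τ0} : Set T) id
    (fun τ hτ => ⟨hold τ (fun h => hτ (by rw [h]; rfl)), rfl, rfl⟩)
    (fun τ hτ => by
      rw [Set.mem_singleton_iff] at hτ
      subst hτ
      exact ⟨l, hl⟩)
  have hold' : ∀ τ, τ ∉ ({τ0} : Set T) → ∀ t < Th.len τ, H.Adj (Th.x τ t) (Th.x τ (t + 1)) :=
    fun τ hτ => hold τ (fun h => hτ (by rw [h]; rfl))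
  have hRo : ∀ τ, τ ≠ τ0 → ∀ t ≤ (R τ).len, (R τ).nd t ∈ oldN Th Z τ := by
    intro τ hτ t ht
    exact hRold τ (fun h => hτ (by simpa using h)) t ht
  have hwt : ∀ v, wt Z (Z.vn v) ≤ deg G v := fun v => (wt_vn Z v).trans (Pool.Agent.Helper83.OP.deg_mono hHG v)
  have hmult : ∀ τ τ', τ' ≠ τ → mult R ({τ0} : Set T) τ τ' = (common (R τ) (R τ')).ncard := by
    intro τ τ' hne'
    rw [mult, if_neg]
    rintro ⟨h1, h2⟩
    rw [Set.mem_singleton_iff] at h1 h2
    exact hne' (h2.trans h1.symm)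
  apply hKPl (K + 2 * C + 4)
  intro τ
  have hpos := Th.pos τ
  by_cases hτ : τ = τ0
  · -- the new thread
    subst hτ
    have hG := (hGam (Z.vn (Th.x τ 0)) (Z.vn (Th.x τ (Th.len τ))) ⟨l, hl⟩)
    have hR0 : R τ = Gam (Z.vn (Th.x τ 0)) (Z.vn (Th.x τ (Th.len τ))) := hRS τ rfl
    have hcost : (R τ).cost (cst Z) ≤ K * Th.len τ := by
      refine le_trans ?_ hc
      rw [hR0]
      apply hG.2 l
      rw [hG.1.1, hG.1.2]
      exact hl
    have h0 : (R τ).nd 0 = Z.vn (Th.x τ 0) := by rw [hR0]; exact hG.1.1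
    have h1 : ∀ τ' ∈ (Finset.univ : Finset T),
        (if τ' = τ then 0 else mult R ({τ} : Set T) τ τ') ≤
        ∑ i ∈ Finset.range ((R τ).len + 1),
          (if τ' ∉ ({τ} : Set T) ∧ (R τ).nd i ∈ oldN Th Z τ' then 1 else 0) := by
      intro τ' _
      by_cases he : τ' = τ
      · rw [if_pos he]
        exact Nat.zero_le _
      · rw [if_neg he, hmult τ τ' he, common_comm]
        refine (common_le_hits (R τ') (R τ) (oldN Th Z τ') (hRo τ' he)).trans ?_
        rw [← Finset.card_filter, ← Set.ncard_coe_finset]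
        refine Set.ncard_le_ncard ?_ (Finset.finite_toSet _)
        rintro i ⟨hi, hi2⟩
        rw [Finset.mem_coe, Finset.mem_filter, Finset.mem_range]
        exact ⟨by omega, by simpa using he, hi2⟩
    refine (Finset.sum_le_sum h1).trans ?_
    rw [Finset.sum_comm]
    have h2 : ∀ i ∈ Finset.range ((R τ).len + 1), ∑ τ' : T,
        (if τ' ∉ ({τ} : Set T) ∧ (R τ).nd i ∈ oldN Th Z τ' then 1 else 0) ≤
        wt Z ((R τ).nd i) := by
      intro i _
      rw [← Finset.card_filter]
      refine le_trans ?_ (old_count Th Z ({τ} : Set T) hold' ((R τ).nd i))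
      rw [← Set.ncard_coe_finset]
      apply Set.ncard_le_ncard _ (Set.toFinite _)
      intro τ' h
      exact (Finset.mem_filter.1 (Finset.mem_coe.1 h)).2
    refine (Finset.sum_le_sum h2).trans ((sum_wt_route Z (R τ)).trans ?_)
    rw [h0]
    have h3 := (hwt (Th.x τ 0)).trans (hends τ).1
    calc wt Z (Z.vn (Th.x τ 0)) + (R τ).cost (cst Z) ≤ C * Th.len τ + K * Th.len τ :=
          Nat.add_le_add h3 hcost
      _ = (C + K) * Th.len τ := by ring
      _ ≤ (K + 2 * C + 4) * Th.len τ := Nat.mul_le_mul_right _ (by omega)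
  · -- an old thread
    obtain ⟨hfin, hcard⟩ := oldN_card Th Z τ (hold τ hτ)
    have h1 : ∀ τ' ∈ (Finset.univ : Finset T),
        (if τ' = τ then 0 else mult R ({τ0} : Set T) τ τ') ≤
        (if τ' = τ ∨ τ' ∈ ({τ0} : Set T) then 0 else (oldN Th Z τ ∩ oldN Th Z τ').ncard) +
        (if τ' = τ0 then 2 * Th.len τ + 1 else 0) := by
      intro τ' _
      by_cases he : τ' = τ
      · rw [if_pos he]
        exact Nat.zero_le _
      · rw [if_neg he, hmult τ τ' he]
        by_cases h0 : τ' = τ0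
        · rw [if_pos h0]
          refine le_trans ?_ (Nat.le_add_left _ _)
          refine le_trans (Set.ncard_le_ncard ?_ hfin) hcard
          rintro j ⟨⟨s, hs, hj⟩, -⟩
          rw [← hj]
          exact hRo τ hτ s hs
        · rw [if_neg (by
            rintro (h | h)
            · exact he h
            · exact h0 (by simpa using h))]
          refine le_trans ?_ (Nat.le_add_right _ _)
          apply Set.ncard_le_ncard _ (hfin.subset Set.inter_subset_left)
          rintro j ⟨⟨s, hs, hj⟩, t, ht, hj'⟩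
          refine ⟨?_, ?_⟩
          · rw [← hj]
            exact hRo τ hτ s hs
          · rw [← hj']
            exact hRo τ' h0 t ht
    refine (Finset.sum_le_sum h1).trans ?_
    rw [Finset.sum_add_distrib, Finset.sum_ite_eq' Finset.univ τ0 (fun _ => 2 * Th.len τ + 1),
      if_pos (Finset.mem_univ _)]
    have h6 := old_old_loc Th Z ({τ0} : Set T) hold' τ (by simpa using hτ)
    have h3 := (hwt (Th.x τ 0)).trans (hends τ).1
    have h4 := (hwt (Th.x τ (Th.len τ))).trans (hends τ).2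
    have h5 : ∑ τ' : T, (if τ' = τ ∨ τ' ∈ ({τ0} : Set T) then 0
        else (oldN Th Z τ ∩ oldN Th Z τ').ncard) ≤ 2 * (C * Th.len τ) + Th.len τ := by
      refine le_trans (le_of_eq ?_) (h6.trans (by omega))
      apply Finset.sum_congr rfl
      intro q _
      by_cases hq : q = τ ∨ q ∈ ({τ0} : Set T)
      · rw [if_pos hq, if_pos hq]
      · rw [if_neg hq, if_neg hq]
    calc _ ≤ (2 * (C * Th.len τ) + Th.len τ) + (2 * Th.len τ + 1) := Nat.add_le_add_right h5 _
      _ ≤ 2 * (C * Th.len τ) + 4 * Th.len τ := by omega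
      _ = (2 * C + 4) * Th.len τ := by ring
      _ ≤ (K + 2 * C + 4) * Th.len τ := Nat.mul_le_mul_right _ (by omega)

end Pool.Agent.Helper71.PV
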